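import Pool.Agent.Lib.MP_f46d6a_h79.Transfer
import Pool.Agent.Lib.MP_f46d6a_h79.Perf
import Pool.Agent.Lib.MP_f46d6a_h79.CritEx
import Pool.Agent.Lib.MP_f46d6a.Good

/-!
# The planar eigenvalue-torsion attainable set is not closed
-/

set_option autoImplicit false

namespace Pool.Agent.Results.MP_f46d6a_an.NotClosed

open Pool.Agent.Lib.MP_f46d6a Pool.Agent.MP_f46d6a

theorem result : ¬ IsClosed (attainable 2) :=
  not_closed_of perforated (hno_of_no_crit no_crit)

end Pool.Agent.Results.MP_f46d6a_an.NotClosed
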